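import Pool.Agent.H126R2.NC.L4
import Pool.Agent.H825R2.EW.PRatio

set_option autoImplicit false
set_option linter.unusedSectionVars false

/-!
Faithful circuit covers of eulerian admissible weights, odd values allowed.
-/

namespace Pool.Agent.H655R2.GOD

open Finset
open Pool.Agent.Helper879.ECD (F2 IsFlow f2_add_self f2_cases cn)
open Pool.Agent.H126R2.CDC (MGraph T3 IsFl isFl_iff exists_double_cover exists_flow8)
open Pool.Agent.H126R2.NC

variable {V E : Type} [Fintype V] [DecidableEq V] [Fintype E] [DecidableEq E]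

lemma add_cover (G : MGraph V E) {p q : E → ℕ} (hp : InIntCone G p) (hq : InIntCone G q) :
    InIntCone G (fun e => p e + q e) := by
  obtain ⟨F, hF, h1⟩ := hp
  obtain ⟨F', hF', h2⟩ := hq
  refine ⟨F + F', fun C hC => ?_, fun e => ?_⟩
  · rcases Multiset.mem_add.1 hC with h | h
    · exact hF C h
    · exact hF' C h
  · rw [Multiset.countP_add, h1, h2]

lemma smul_cover (G : MGraph V E) {p : E → ℕ} (k : ℕ) (hp : InIntCone G p) :
    InIntCone G (fun e => k * p e) := by
  induction k with
  | zero => exact ⟨0, by simp, by simp⟩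
  | succ k ih =>
    have h1 := add_cover G ih hp
    have h : (fun e => (k + 1) * p e) = fun e => k * p e + p e := by
      ext e; ring
    rw [h]; exact h1

/-- the edges with exactly one end in `X` -/
def cut (G : MGraph V E) (X : Finset V) : Finset E :=
  univ.filter (fun e => (∃ v ∈ G.ends e, v ∈ X) ∧ ∃ v ∈ G.ends e, v ∉ X)

lemma mem_cut (G : MGraph V E) (v : E × Bool → V)
    (hv : ∀ e, G.ends e = s(v (e, false), v (e, true))) (X : Finset V) (f : E) :
    f ∈ cut G X ↔ ¬ (v (f, false) ∈ X ↔ v (f, true) ∈ X) := by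
  unfold cut
  rw [Finset.mem_filter, hv f]
  simp only [Finset.mem_univ, true_and, Sym2.mem_iff, exists_eq_or_imp, exists_eq_left]
  tauto

lemma f2_cast (n : ℕ) : ((n : ℕ) : F2) = if n % 2 = 1 then 1 else 0 := by
  rcases Nat.mod_two_eq_zero_or_one n with h | h
  · rw [if_neg (by omega)]
    rw [← Nat.div_add_mod n 2, h]
    push_cast
    have : (2 : F2) = 0 := by decide
    rw [this]; ring
  · rw [if_pos h]
    rw [← Nat.div_add_mod n 2, h]
    push_cast
    have : (2 : F2) = 0 := by decide
    rw [this]; ring

/-- the edges of odd weight form an even subgraph -/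
lemma odd_even (G : MGraph V E) (w : E → ℕ) (heul : ∀ X : Finset V, Even (∑ e ∈ cut G X, w e)) :
    G.IsEven (univ.filter (fun e => w e % 2 = 1)) := by
  obtain ⟨v, hv⟩ := G.exists_halves
  rw [G.isEven_iff v hv, isFl_iff]
  intro c
  have h := heul (univ.filter (fun u => c u = 1))
  rw [← ZMod.natCast_eq_zero_iff_even] at h
  refine Eq.trans ?_ h
  rw [Nat.cast_sum]
  have h1 : ∑ e ∈ cut G (univ.filter (fun u => c u = 1)), ((w e : ℕ) : F2) =
      ∑ e : E, (if e ∈ cut G (univ.filter (fun u => c u = 1)) then ((w e : ℕ) : F2) else 0) := by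
    rw [← Finset.sum_filter]
    apply Finset.sum_congr _ (fun _ _ => rfl)
    ext e
    simp
  rw [h1]
  apply Finset.sum_congr rfl
  intro e _
  rw [f2_cast]
  have h2 := mem_cut G v hv (univ.filter (fun u => c u = 1)) e
  simp only [Finset.mem_filter, Finset.mem_univ, true_and] at h2
  simp only [Finset.mem_filter, Finset.mem_univ, true_and]
  by_cases h3 : w e % 2 = 1
  · rw [if_pos h3, one_mul]
    rcases f2_cases (c (v (e, false))) with h4 | h4 <;>
      rcases f2_cases (c (v (e, true))) with h5 | h5 <;> rw [h4, h5] at h2 ⊢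
    · rw [if_neg (by rw [h2]; simp), add_zero]
    · rw [if_pos (by rw [h2]; simp), zero_add]
    · rw [if_pos (by rw [h2]; simp), add_zero]
    · rw [if_neg (by rw [h2]; simp), f2_add_self]
  · rw [if_neg h3, zero_mul, ite_self]

/-- an even subgraph is covered once by circuits -/
lemma cover_even (G : MGraph V E) (O : Finset E) (hO : G.IsEven O) :
    InIntCone G (fun e => if e ∈ O then 1 else 0) :=
  G.decompose _ O rfl hO

lemma count7 : ∀ a b c o : F2, (a ≠ 0 ∨ b ≠ 0 ∨ c ≠ 0) →
    ((univ : Finset (F2 × F2 × F2)).filter (fun h => h ≠ 0 ∧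
      h.1 * a + h.2.1 * b + h.2.2 * c + o = 1)).card = if o = 1 then 3 else 4 := by
  decide

/-- every edge of an even subgraph three times, every other edge four times -/
lemma cover_four (G : MGraph V E) (v : E × Bool → V)
    (hv : ∀ e, G.ends e = s(v (e, false), v (e, true)))
    (hbr : ∀ X : Finset V, cn (fun e => v (e, false)) (fun e => v (e, true)) univ X ≠ 1)
    (O : Finset E) (hO : G.IsEven O) : InIntCone G (fun e => if e ∈ O then 3 else 4) := by
  classical
  obtain ⟨ψ, h1, h2⟩ := exists_flow8 _ (fun e => v (e, false)) (fun e => v (e, true)) rfl hbr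
  have hO1 := (isFl_iff v _).1 ((G.isEven_iff v hv O).1 hO)
  let val : F2 × F2 × F2 → E → F2 := fun h e =>
    h.1 * ψ 0 e + h.2.1 * ψ 1 e + h.2.2 * ψ 2 e + (if e ∈ O then 1 else 0)
  have hval : ∀ h, IsFlow (fun e => v (e, false)) (fun e => v (e, true)) (val h) := by
    intro h c
    have k0 := h2 0 c
    have k1 := h2 1 c
    have k2 := h2 2 c
    have k3 := hO1 c
    have : ∑ e, val h e * (c (v (e, false)) + c (v (e, true))) =
        h.1 * ∑ e, ψ 0 e * (c (v (e, false)) + c (v (e, true))) +
        h.2.1 * ∑ e, ψ 1 e * (c (v (e, false)) + c (v (e, true))) +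
        h.2.2 * ∑ e, ψ 2 e * (c (v (e, false)) + c (v (e, true))) +
        ∑ e, (if e ∈ O then (1 : F2) else 0) * (c (v (e, false)) + c (v (e, true))) := by
      rw [Finset.mul_sum, Finset.mul_sum, Finset.mul_sum, ← Finset.sum_add_distrib,
        ← Finset.sum_add_distrib, ← Finset.sum_add_distrib]
      apply Finset.sum_congr rfl
      intro e _
      simp only [val]
      ring
    rw [this]
    rw [k0, k1, k2, k3]
    ring
  have hev : ∀ h : F2 × F2 × F2, G.IsEven (univ.filter (fun e => val h e = 1)) := by
    intro h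
    rw [G.isEven_iff v hv, isFl_iff]
    have : (fun e => if e ∈ univ.filter (fun e => val h e = 1) then (1 : F2) else 0) = val h := by
      ext e
      rcases f2_cases (val h e) with h4 | h4
      · simp [h4]
      · simp [h4]
    rw [this]
    exact hval h
  choose F hF1 hF2 using fun h => G.decompose _ _ rfl (hev h)
  refine ⟨∑ h ∈ (univ : Finset (F2 × F2 × F2)).filter (fun h => h ≠ 0), F h, ?_, ?_⟩
  · intro C hC
    rw [Multiset.mem_sum] at hC
    obtain ⟨c, _, hc⟩ := hC
    exact hF1 c C hc
  · intro e
    rw [countP_sum]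
    have h3 : ∀ h ∈ (univ : Finset (F2 × F2 × F2)).filter (fun h => h ≠ 0),
        (F h).countP (fun C => e ∈ C) = if val h e = 1 then 1 else 0 := by
      intro h _
      rw [hF2 h e]
      simp
    rw [Finset.sum_congr rfl h3, ← Finset.sum_filter, Finset.sum_const, Finset.filter_filter,
      smul_eq_mul, mul_one]
    have h4 := count7 (ψ 0 e) (ψ 1 e) (ψ 2 e) (if e ∈ O then 1 else 0) (h1 e)
    refine h4.trans ?_
    by_cases h5 : e ∈ O
    · simp [h5]
    · simp [h5]

/-- near-constant even weights which are constant on the two-edge cuts -/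
theorem cover_of_tc (G : MGraph V E) (v : E × Bool → V)
    (hv : ∀ e, G.ends e = s(v (e, false), v (e, true)))
    (hbr : ∀ X : Finset V, cn (fun e => v (e, false)) (fun e => v (e, true)) univ X ≠ 1)
    (p : E → ℕ) (hev : ∀ e, Even (p e)) (hr : ∀ e f, 8 * p e ≤ 9 * p f)
    (htc : ∀ e f, TC (fun e => v (e, false)) (fun e => v (e, true)) e f → p e = p f) :
    InIntCone G p := by
  classical
  by_cases hE : IsEmpty E
  · exact ⟨0, by simp, fun e => (hE.false e).elim⟩
  rw [not_isEmpty_iff] at hE
  obtain ⟨col, hcol1, hcol2⟩ := nine_colouring_bridgeless (fun e => v (e, false))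
    (fun e => v (e, true)) hbr
  obtain ⟨e0, -, he0⟩ := Finset.exists_max_image (univ : Finset E) p
    (Finset.univ_nonempty)
  obtain ⟨e1, -, he1⟩ := Finset.exists_min_image (univ : Finset E) p
    (Finset.univ_nonempty)
  choose q hq using hev
  have hqp : ∀ e, p e = 2 * q e := fun e => by rw [hq e]; ring
  set M := q e0 with hM
  set T := q e0 - q e1 with hT
  have hle0 : ∀ e, q e ≤ M := fun e => by
    have := he0 e (Finset.mem_univ _)
    rw [hqp, hqp] at this; omega
  have hle1 : ∀ e, q e1 ≤ q e := fun e => by
    have := he1 e (Finset.mem_univ _)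
    rw [hqp, hqp] at this; omega
  have h9 : 9 * T ≤ M := by
    have := hr e0 e1
    rw [hqp, hqp] at this
    omega
  have hcov : ∀ (t : ℕ) (γ : Fin 3 × Fin 3), ∃ F : Multiset (Finset E),
      (∀ C ∈ F, G.IsCircuit C) ∧ ∀ e, F.countP (fun C => e ∈ C) =
        if e ∈ univ.filter (fun e => t < M - q e ∧ col e = γ) then 0 else 2 := by
    intro t γ
    apply cover_minus G v hv
    apply hcol2 _ γ
    · intro e he
      exact (Finset.mem_filter.1 he).2.2
    · intro e he f hef
      rw [Finset.mem_filter] at he ⊢
      have h1 := htc e f hef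
      rw [hqp, hqp] at h1
      refine ⟨Finset.mem_univ _, ?_, ?_⟩
      · have := he.2.1; omega
      · rw [← hcol1 e f hef]; exact he.2.2
  choose F hF1 hF2 using hcov
  obtain ⟨F0, hF01, hF02⟩ := cover_minus G v hv ∅ (by
    intro B
    rw [Finset.sdiff_empty]
    exact hbr B)
  refine ⟨∑ x ∈ (Finset.range T) ×ˢ (univ : Finset (Fin 3 × Fin 3)), F x.1 x.2 +
    (M - 9 * T) • F0, ?_, ?_⟩
  · intro C hC
    rw [Multiset.mem_add] at hC
    rcases hC with hC | hC
    · rw [Multiset.mem_sum] at hC
      obtain ⟨c, _, hc⟩ := hC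
      exact hF1 _ _ C hc
    · exact hF01 C (Multiset.mem_of_mem_nsmul hC)
  · intro e
    rw [Multiset.countP_add, countP_sum, Multiset.countP_nsmul, hF02 e, if_neg (by simp)]
    have h1 : ∑ x ∈ (Finset.range T) ×ˢ (univ : Finset (Fin 3 × Fin 3)),
        (F x.1 x.2).countP (fun C => e ∈ C) + 2 * (M - q e) = 18 * T := by
      rw [Finset.sum_product]
      dsimp only
      have h2 : ∀ t ∈ Finset.range T, ∑ γ : Fin 3 × Fin 3, (F t γ).countP (fun C => e ∈ C) +
          (if t < M - q e then 2 else 0) = 18 := by
        intro t _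
        have h3 : ∀ γ ∈ (univ : Finset (Fin 3 × Fin 3)), (F t γ).countP (fun C => e ∈ C) +
            (if γ = col e then (if t < M - q e then 2 else 0) else 0) = 2 := by
          intro γ _
          rw [hF2 t γ e]
          by_cases h4 : t < M - q e
          · by_cases h5 : γ = col e
            · subst h5; simp [h4]
            · simp [h4, h5, Ne.symm h5]
          · simp [h4]
        have h4 := Finset.sum_congr rfl h3
        rw [Finset.sum_add_distrib, Finset.sum_ite_eq'] at h4
        simpa using h4
      have h5 := Finset.sum_congr rfl h2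
      rw [Finset.sum_add_distrib, ← Finset.sum_filter, Finset.sum_const, Finset.sum_const,
        Finset.card_range] at h5
      have h6 : ((Finset.range T).filter (fun t => t < M - q e)).card = M - q e := by
        have h7 : (Finset.range T).filter (fun t => t < M - q e) = Finset.range (M - q e) := by
          ext t
          rw [Finset.mem_filter, Finset.mem_range, Finset.mem_range]
          have := hle1 e
          omega
        rw [h7, Finset.card_range]
      rw [h6] at h5
      simp only [smul_eq_mul] at h5
      omega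
    have h2 := hle0 e
    have h3 := hqp e
    have h4 : (M - 9 * T) * 2 + 18 * T = 2 * M := by omega
    omega

/-- admissible positive weights live on bridgeless graphs -/
lemma adm_cn (G : MGraph V E) (v : E × Bool → V)
    (hv : ∀ e, G.ends e = s(v (e, false), v (e, true))) (w : E → ℕ) (hpos : ∀ e, 0 < w e)
    (hadm : ∀ X : Finset V, ∀ e ∈ cut G X, 2 * w e ≤ ∑ f ∈ cut G X, w f) (X : Finset V) :
    cn (fun e => v (e, false)) (fun e => v (e, true)) univ X ≠ 1 := by
  intro h
  unfold cn at h
  obtain ⟨e, he⟩ := Finset.card_eq_one.1 h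
  have h1 : cut G X = {e} := by
    rw [← he]
    ext f
    rw [mem_cut G v hv]
    simp
  have h2 := hadm X e (by rw [h1]; simp)
  rw [h1, Finset.sum_singleton] at h2
  have := hpos e
  omega

/-- admissible weights are constant on the two-edge cuts -/
lemma adm_tc (G : MGraph V E) (v : E × Bool → V)
    (hv : ∀ e, G.ends e = s(v (e, false), v (e, true))) (w : E → ℕ)
    (hadm : ∀ X : Finset V, ∀ e ∈ cut G X, 2 * w e ≤ ∑ f ∈ cut G X, w f) (e f : E)
    (h : TC (fun e => v (e, false)) (fun e => v (e, true)) e f) : w e = w f := by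
  by_cases hef : e = f
  · rw [hef]
  obtain ⟨z, hz⟩ := h
  have h1 : cut G (univ.filter (fun u => z u = 1)) = {e, f} := by
    ext g
    rw [mem_cut G v hv]
    simp only [Finset.mem_filter, Finset.mem_univ, true_and, Finset.mem_insert,
      Finset.mem_singleton]
    have h2 := hz g
    dsimp only at h2
    rcases f2_cases (z (v (g, false))) with h4 | h4 <;>
      rcases f2_cases (z (v (g, true))) with h5 | h5 <;> rw [h4, h5] at h2 ⊢
    · by_cases h6 : g = e
      · have h7 : g ≠ f := fun h7 => hef (h6.symm.trans h7)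
        rw [if_pos h6, if_neg h7] at h2
        exact absurd h2 (by decide)
      · by_cases h7 : g = f
        · rw [if_neg h6, if_pos h7] at h2
          exact absurd h2 (by decide)
        · simp [h6, h7]
    · by_cases h6 : g = e
      · simp [h6]
      · by_cases h7 : g = f
        · simp [h7]
        · rw [if_neg h6, if_neg h7] at h2
          exact absurd h2 (by decide)
    · by_cases h6 : g = e
      · simp [h6]
      · by_cases h7 : g = f
        · simp [h7]
        · rw [if_neg h6, if_neg h7] at h2
          exact absurd h2 (by decide)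
    · by_cases h6 : g = e
      · have h7 : g ≠ f := fun h7 => hef (h6.symm.trans h7)
        rw [if_pos h6, if_neg h7] at h2
        exact absurd h2 (by decide)
      · by_cases h7 : g = f
        · rw [if_neg h6, if_pos h7] at h2
          exact absurd h2 (by decide)
        · simp [h6, h7]
  have h2 := hadm _ e (by rw [h1]; simp)
  have h3 := hadm _ f (by rw [h1]; simp)
  rw [h1, Finset.sum_pair hef] at h2 h3
  omega

/-- combining: the part `q` can be covered, the rest is made of the odd edges -/
theorem combine (G : MGraph V E) (w : E → ℕ) (hpos : ∀ e, 0 < w e)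
    (heul : ∀ X : Finset V, Even (∑ e ∈ cut G X, w e))
    (hadm : ∀ X : Finset V, ∀ e ∈ cut G X, 2 * w e ≤ ∑ f ∈ cut G X, w f)
    (q : E → ℕ) (hq : InIntCone G q) (k : ℕ)
    (hk : (∀ e, w e = q e + k * (w e % 2)) ∨ (∀ e, w e + k * (w e % 2) = q e + 4 * k)) :
    InIntCone G w := by
  obtain ⟨v, hv⟩ := G.exists_halves
  have hO := odd_even G w heul
  rcases hk with hk | hk
  · have h1 := add_cover G hq (smul_cover G k (cover_even G _ hO))
    have h2 : w = fun e => q e + k * (if e ∈ univ.filter (fun e => w e % 2 = 1) then 1 else 0) := by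
      ext e
      have h3 := hk e
      simp only [Finset.mem_filter, Finset.mem_univ, true_and]
      rcases Nat.mod_two_eq_zero_or_one (w e) with h4 | h4
      · rw [h4] at h3 ⊢; simpa using h3
      · rw [h4] at h3 ⊢; simpa using h3
    rw [h2]; exact h1
  · have h1 := add_cover G hq (smul_cover G k
      (cover_four G v hv (adm_cn G v hv w hpos hadm) _ hO))
    have h2 : w = fun e => q e + k * (if e ∈ univ.filter (fun e => w e % 2 = 1) then 3 else 4) := by
      ext e
      have h3 := hk e
      simp only [Finset.mem_filter, Finset.mem_univ, true_and]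
      rcases Nat.mod_two_eq_zero_or_one (w e) with h4 | h4
      · rw [h4] at h3 ⊢
        rw [if_neg (by decide)]
        omega
      · rw [h4] at h3 ⊢
        rw [if_pos rfl]
        omega
    rw [h2]; exact h1

theorem near (G : MGraph V E) (w : E → ℕ) (hpos : ∀ e, 0 < w e)
    (heul : ∀ X : Finset V, Even (∑ e ∈ cut G X, w e))
    (hadm : ∀ X : Finset V, ∀ e ∈ cut G X, 2 * w e ≤ ∑ f ∈ cut G X, w f)
    (q : E → ℕ) (hq : ∀ e, Even (q e)) (hr : ∀ e f, 8 * q e ≤ 9 * q f) (k : ℕ)
    (hk : (∀ e, w e = q e + k * (w e % 2)) ∨ (∀ e, w e + k * (w e % 2) = q e + 4 * k)) :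
    InIntCone G w := by
  obtain ⟨v, hv⟩ := G.exists_halves
  apply combine G w hpos heul hadm q _ k hk
  apply cover_of_tc G v hv (adm_cn G v hv w hpos hadm) q hq hr
  intro e f hef
  have h1 := adm_tc G v hv w hadm e f hef
  rcases hk with hk | hk
  · have h2 := hk e
    have h3 := hk f
    rw [h1] at h2
    omega
  · have h2 := hk e
    have h3 := hk f
    rw [h1] at h2
    omega

end Pool.Agent.H655R2.GOD
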